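import Pool.Agent.TF2.G.V4L
import Pool.Agent.THG.G.Chi

/-!
# TF2/G-Chi: the signs form a character of the real places, for one field

Copy of THG/G/Chi with the hypotheses on one field `K`: `ExK D a K`.
-/

namespace Pool.Agent.TF2

open NumberField IsDedekindDomain Pool.Agent.HWR Pool.Agent.QD Pool.Agent.QD.In Pool.Agent.LD
  Pool.Agent.MD Pool.Agent.THF Pool.Agent.THG

theorem SG_exK {T : Finset ℕ} (hTp : ∀ p ∈ T, p.Prime) (hT : ∀ p : ℕ, p.Prime → p < 101 → p ∈ T)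
    (D : LocData T) {a : ℕ → ℝ} (ha : ∀ q : ℕ, |a q| ≤ 2 * Real.sqrt q)
    {K : Type} [Field K] [NumberField K] (hK : HWpm D a K)
    (hp : ∀ (L : Type) [Field L] [NumberField L] [Algebra K L], Module.finrank K L = 2 →
      HWpm D a L) (x : Kˣ) : ∃ η : ℤ, SG D a x η := by
  by_cases hx : IsSquare x
  · exact ⟨1, SG_sq hTp hT D ha hx hK⟩
  · obtain ⟨Λ, h1, h2, h3, h4⟩ := hp (qf hx).L (qf hx).deg
    have h5 : ∀ s : ℂ, 3 / 2 < s.re → Λ s = LX D a x s := fun s hs => by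
      rw [h4 s hs, LX_quad D hTp hT ha hx (qf hx).L (qf hx).deg (qf hx).θ (qf hx).sq hs]
    rcases wx_cases D x with hw | hw <;> rcases h3 with h | h
    · refine ⟨1, Or.inl rfl, Λ, h1, h2, fun s => ?_, h5⟩
      rw [h s, hw]
      push_cast
      rw [one_mul, one_mul]
    · refine ⟨-1, Or.inr rfl, Λ, h1, h2, fun s => ?_, h5⟩
      rw [h s, hw]
      push_cast
      ring
    · refine ⟨-1, Or.inr rfl, Λ, h1, h2, fun s => ?_, h5⟩
      rw [h s, hw]
      push_cast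
      ring
    · refine ⟨1, Or.inl rfl, Λ, h1, h2, fun s => ?_, h5⟩
      rw [h s, hw]
      push_cast
      ring

private theorem ch_pos {K : Type} [Field K] (x : Kˣ) (φ : K →+* ℝ) (h : ¬ φ (x : K) < 0) :
    0 < φ (x : K) :=
  lt_of_le_of_ne (not_lt.1 h) (Ne.symm ((map_ne_zero φ).2 x.ne_zero))

private theorem ch_nsq {K : Type} [Field K] {x : Kˣ} {φ : K →+* ℝ} (h : φ (x : K) < 0) :
    ¬ IsSquare x := by
  rintro ⟨y, hy⟩
  have h1 : φ (x : K) = φ (y : K) * φ (y : K) := by rw [hy, Units.val_mul, map_mul]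
  have h2 := mul_self_nonneg (φ (y : K))
  linarith

private theorem ch_pm {e f g : ℤ} (hf : f = 1 ∨ f = -1) (h1 : e * f * 1 = 1)
    (h2 : g * f * 1 = 1) : e = g := by
  rcases hf with rfl | rfl <;> linarith

section

variable {T : Finset ℕ} (hTp : ∀ p ∈ T, p.Prime) (hT : ∀ p : ℕ, p.Prime → p < 101 → p ∈ T)
  (D : LocData T) {a : ℕ → ℝ} (ha : ∀ q : ℕ, |a q| ≤ 2 * Real.sqrt q) 
  {K : Type} [Field K] [NumberField K] (hE : ExK D a K)

include hTp hT ha hE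

private theorem ch_ex (x : Kˣ) : ∃ η : ℤ, SG D a x η :=
  SG_exK hTp hT D ha hE.1 (fun L _ _ _ hd => hE.2.1 L hd) x

private theorem ch_one {x : Kˣ} {e : ℤ} (h : SG D a x e) (hx : ∀ φ : K →+* ℝ, ¬ φ (x : K) < 0) :
    e = 1 :=
  SG_uniq hTp hT D ha h (SG_posK hTp hT D ha hE (Or.inl fun φ => ch_pos x φ (hx φ)))

private theorem ch_same {x y : Kˣ} (h : ∀ φ : K →+* ℝ, φ (x : K) < 0 ↔ φ (y : K) < 0) {e e' : ℤ}
    (hx : SG D a x e) (hy : SG D a y e') : e = e' := by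
  by_cases hp : ∀ φ : K →+* ℝ, ¬ φ (x : K) < 0
  · rw [ch_one hTp hT D ha hE hx hp, ch_one hTp hT D ha hE hy fun φ hφ => hp φ ((h φ).2 hφ)]
  · push Not at hp
    obtain ⟨φ0, hφ0⟩ := hp
    obtain ⟨z, hz1, hz2, hz3, hz4, hz5⟩ :=
      exists_TS hTp (hT 2 Nat.prime_two (by norm_num)) {φ : K →+* ℝ | φ (x : K) < 0} x y
    obtain ⟨f, hf⟩ := ch_ex hTp hT D ha hE z
    have key : ∀ (w : Kˣ) (g : ℤ), (∀ φ : K →+* ℝ, φ (x : K) < 0 ↔ φ (w : K) < 0) →
        ¬ IsSquare (w * z) → SG D a w g → g * f * 1 = 1 := by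
      intro w g hw hwz hwg
      have hwns : ¬ IsSquare w := ch_nsq ((hw φ0).1 hφ0)
      have h1 : SG D a (w * z) 1 := by
        refine SG_posK hTp hT D ha hE (Or.inl fun φ => ?_)
        rw [Units.val_mul, map_mul]
        by_cases hφ : φ (x : K) < 0
        · exact mul_pos_of_neg_of_neg ((hw φ).1 hφ) ((hz2 φ).1 hφ)
        · exact mul_pos (ch_pos w φ fun hn => hφ ((hw φ).2 hn)) ((hz2 φ).2 hφ)
      refine v4_sgK hTp hT D ha hE hwns hz3 hwz hz1 (fun φ hφ => ?_) hwg hf h1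
      refine ch_pos w φ fun hn => ?_
      have := (hz2 φ).1 ((hw φ).2 hn)
      linarith
    exact ch_pm hf.1 (key x e (fun _ => Iff.rfl) hz4 hx) (key y e' h hz5 hy)

private theorem ch_mul {x z y : Kˣ} (hd : ∀ φ : K →+* ℝ, φ (x : K) < 0 → 0 < φ (z : K))
    (hu : ∀ φ : K →+* ℝ, φ (y : K) < 0 ↔ φ (x : K) < 0 ∨ φ (z : K) < 0) {e1 e2 e3 : ℤ}
    (h1 : SG D a x e1) (h2 : SG D a z e2) (h3 : SG D a y e3) : e3 = e1 * e2 := by
  by_cases hp : ∀ φ : K →+* ℝ, ¬ φ (x : K) < 0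
  · rw [ch_one hTp hT D ha hE h1 hp, one_mul]
    exact ch_same hTp hT D ha hE (fun φ => by rw [hu φ]; exact ⟨fun h => h.resolve_left (hp φ), Or.inr⟩) h3 h2
  by_cases hq : ∀ φ : K →+* ℝ, ¬ φ (z : K) < 0
  · rw [ch_one hTp hT D ha hE h2 hq, mul_one]
    exact ch_same hTp hT D ha hE (fun φ => by rw [hu φ]; exact ⟨fun h => h.resolve_right (hq φ), Or.inl⟩) h3 h1
  push Not at hp hq
  obtain ⟨φ1, hφ1⟩ := hp
  obtain ⟨φ2, hφ2⟩ := hq
  have hT2 := hT 2 Nat.prime_two (by norm_num)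
  obtain ⟨x', hx1, hx2, hx3, -, -⟩ := exists_TS hTp hT2 {φ : K →+* ℝ | φ (x : K) < 0} 1 1
  obtain ⟨z', hz1, hz2, hz3, hz4, -⟩ := exists_TS hTp hT2 {φ : K →+* ℝ | φ (z : K) < 0} x' 1
  have sx : ∀ φ : K →+* ℝ, φ (x' : K) < 0 ↔ φ (x : K) < 0 := fun φ =>
    ⟨fun h => by_contra fun hn => by have := (hx2 φ).2 hn; linarith, fun h => (hx2 φ).1 h⟩
  have sz : ∀ φ : K →+* ℝ, φ (z' : K) < 0 ↔ φ (z : K) < 0 := fun φ =>
    ⟨fun h => by_contra fun hn => by have := (hz2 φ).2 hn; linarith, fun h => (hz2 φ).1 h⟩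
  have sxz : ∀ φ : K →+* ℝ, φ ((x' * z' : Kˣ) : K) < 0 ↔ φ (y : K) < 0 := by
    intro φ
    rw [hu φ, ← sx φ, ← sz φ, Units.val_mul, map_mul]
    constructor
    · intro h
      by_contra hn
      push Not at hn
      have := mul_nonneg hn.1 hn.2
      linarith
    · rintro (h | h)
      · have h5 : 0 < φ (z' : K) := by
          refine ch_pos z' φ fun hn => ?_
          have := hd φ ((sx φ).1 h)
          have := (sz φ).1 hn
          linarith
        exact mul_neg_of_neg_of_pos h h5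
      · have h5 : 0 < φ (x' : K) := by
          refine ch_pos x' φ fun hn => ?_
          have := hd φ ((sx φ).1 hn)
          have := (sz φ).1 h
          linarith
        exact mul_neg_of_pos_of_neg h5 h
  obtain ⟨f1, g1⟩ := ch_ex hTp hT D ha hE x'
  obtain ⟨f2, g2⟩ := ch_ex hTp hT D ha hE z'
  obtain ⟨f3, g3⟩ := ch_ex hTp hT D ha hE (x' * z')
  obtain ⟨f4, g4⟩ := ch_ex hTp hT D ha hE (x' * (x' * z'))
  have e1' := ch_same hTp hT D ha hE sx g1 h1
  have e2' := ch_same hTp hT D ha hE sz g2 h2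
  have e3' := ch_same hTp hT D ha hE sxz g3 h3
  have s4 : ∀ φ : K →+* ℝ, φ ((x' * (x' * z') : Kˣ) : K) < 0 ↔ φ (z' : K) < 0 := by
    intro φ
    have h0 : 0 < φ (x' : K) * φ (x' : K) :=
      mul_self_pos.2 ((map_ne_zero φ).2 x'.ne_zero)
    have h6 : φ ((x' * (x' * z') : Kˣ) : K) = φ (x' : K) * φ (x' : K) * φ (z' : K) := by
      rw [Units.val_mul, Units.val_mul, map_mul, map_mul, mul_assoc]
    rw [h6]
    constructor
    · intro h
      by_contra hn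
      have := mul_nonneg h0.le (not_lt.1 hn)
      linarith
    · intro h
      exact mul_neg_of_pos_of_neg h0 h
  have e4' := ch_same hTp hT D ha hE s4 g4 g2
  have hns : ¬ IsSquare (x' * (x' * z')) := by
    rintro ⟨r, hr⟩
    refine hz3 ⟨r / x', ?_⟩
    rw [div_mul_div_comm, ← hr, ← mul_assoc, mul_div_cancel_left]
  have hv := v4_sgK hTp hT D ha hE (x := x') (z := x' * z') hx3 hz4 hns
    (fun v hv => LSq_mul (hx1 v hv) (hz1 v hv)) (fun φ hφ => ?_) g1 g3 g4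
  · rw [← e1', ← e2', ← e3']
    rw [e4'] at hv
    rcases g1.1 with h | h <;> rcases g2.1 with h' | h' <;> rw [h, h'] at hv ⊢ <;> linarith
  · refine ch_pos x' φ fun hn => ?_
    have h7 : 0 < φ (z' : K) := by
      refine ch_pos z' φ fun hn' => ?_
      have := hd φ ((sx φ).1 hn)
      have := (sz φ).1 hn'
      linarith
    have h8 := mul_neg_of_neg_of_pos hn h7
    rw [Units.val_mul, map_mul] at hφ
    linarith

private theorem ch_ind (e : (K →+* ℝ) → ℤ) (u : (K →+* ℝ) → Kˣ)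
    (hu : ∀ φ ψ : K →+* ℝ, ψ (u φ : K) < 0 ↔ ψ = φ) (he : ∀ φ, SG D a (u φ) (e φ))
    (s : Finset (K →+* ℝ)) : ∀ x : Kˣ, (∀ φ : K →+* ℝ, φ (x : K) < 0 ↔ φ ∈ s) →
      SG D a x (∏ φ ∈ s, e φ) := by
  classical
  induction s using Finset.induction_on with
  | empty =>
    intro x hx
    rw [Finset.prod_empty]
    exact SG_posK hTp hT D ha hE (Or.inl fun φ => ch_pos x φ fun h => by simpa using (hx φ).1 h)
  | insert φ s hφ ih =>
    intro x hx
    obtain ⟨y, hy⟩ := exists_sign (K := K) (s : Set (K →+* ℝ))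
    have sy : ∀ ψ : K →+* ℝ, ψ (y : K) < 0 ↔ ψ ∈ s := fun ψ =>
      ⟨fun h => by_contra fun hn => by have := (hy ψ).2 hn; linarith, fun h => (hy ψ).1 h⟩
    obtain ⟨f, hf⟩ := ch_ex hTp hT D ha hE x
    have h1 := ih y sy
    have h2 : f = e φ * ∏ ψ ∈ s, e ψ := by
      refine ch_mul hTp hT D ha hE (x := u φ) (z := y) (y := x) (fun ψ hψ => ?_) (fun ψ => ?_)
        (he φ) h1 hf
      · refine ch_pos y ψ fun hn => ?_
        rw [(hu φ ψ).1 hψ] at hn
        exact hφ ((sy φ).1 hn)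
      · rw [hx ψ, Finset.mem_insert, hu φ ψ, sy ψ]
    rw [Finset.prod_insert hφ, ← h2]
    exact hf

end

theorem exists_chiK {T : Finset ℕ} (hTp : ∀ p ∈ T, p.Prime)
    (hT : ∀ p : ℕ, p.Prime → p < 101 → p ∈ T) (D : LocData T) {a : ℕ → ℝ}
    (ha : ∀ q : ℕ, |a q| ≤ 2 * Real.sqrt q) (K : Type) [Field K]
    [NumberField K] (hE : ExK D a K) : ∃ e : (K →+* ℝ) → ℤ, (∀ φ, e φ = 1 ∨ e φ = -1) ∧
      ∀ x : Kˣ, SG D a x (chi e x) := by
  classical
  choose u hu using fun φ : K →+* ℝ => exists_sign (K := K) ({φ} : Set (K →+* ℝ))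
  have hu' : ∀ φ ψ : K →+* ℝ, ψ (u φ : K) < 0 ↔ ψ = φ := fun φ ψ =>
    ⟨fun h => by_contra fun hn => by have := (hu φ ψ).2 hn; linarith, fun h => (hu φ ψ).1 h⟩
  choose e he using fun φ : K →+* ℝ => ch_ex hTp hT D ha hE (u φ)
  refine ⟨e, fun φ => (he φ).1, fun x => ?_⟩
  have h := ch_ind hTp hT D ha hE e u hu' he (Finset.univ.filter fun φ : K →+* ℝ => φ (x : K) < 0) x
    (fun φ => by simp)
  have h2 : chi e x = ∏ φ ∈ Finset.univ.filter (fun φ : K →+* ℝ => φ (x : K) < 0), e φ := by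
    unfold chi
    rw [finprod_eq_prod_of_fintype, Finset.prod_filter]
  rw [h2]
  exact h

end Pool.Agent.TF2
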