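import Pool.Agent.THG.W.Cmp

/-!
# TF2/G-Cmp: the numbers `k` are additive in relations

`NDk D a K k`: the symmetric square of `K` as a quotient, with the orders at the far negative integers given by
the number `k` (the conclusion of `exists_ND`).  `cmpL`: for related lists of fields the sums of the `k` agree.
-/

namespace Pool.Agent.TF2

open NumberField IsDedekindDomain Pool.Agent.HWR Pool.Agent.QD Pool.Agent.QD.In Pool.Agent.LD
  Pool.Agent.MD Pool.Agent.THF Pool.Agent.THG Pool.Agent.H73.AL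

/-- the symmetric square as a quotient, orders at the far negative integers -/
def NDk (T : Finset ℕ) (a : ℕ → ℝ) (K : Type) [Field K] [NumberField K] (k : ℕ) : Prop :=
  ∃ A b : ℝ, 6 ≤ A ∧ ∀ X R : ℝ, 0 < X → A < R →
      ∃ N Dd : ℂ → ℂ, DifferentiableOn ℂ N (Bo X R) ∧ Differentiable ℂ Dd ∧
        (∀ z ∈ Bo X R, A < z.re → N z = Dd z * SP K a T z) ∧
        ∀ j : ℕ, (j : ℝ) < X → -(j : ℝ) < b →
          LogO N (-(j : ℂ)) ((2 * Module.finrank ℚ K + 2 * InfinitePlace.nrComplexPlaces K +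
            k : ℕ) : ℝ) ∧
          LogO Dd (-(j : ℂ)) ((Module.finrank ℚ K + InfinitePlace.nrComplexPlaces K : ℕ) : ℝ)

/-- `exists_ND` for one field: only Hasse-Weil up to the sign for the field and the signs `e` are used -/
theorem ndk_of {T : Finset ℕ} (hTp : ∀ p ∈ T, p.Prime)
    (hT : ∀ p : ℕ, p.Prime → p < 101 → p ∈ T) (D : LocData T) {a : ℕ → ℝ}
    (ha : ∀ q : ℕ, |a q| ≤ 2 * Real.sqrt q) (hfr : FrobRel T a) (K : Type)
    [Field K] [NumberField K] (hK : HWpm D a K) {e : (K →+* ℝ) → ℤ}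
    (he : ∀ φ, e φ = 1 ∨ e φ = -1) (hx : ∀ x : Kˣ, SG D a x (chi e x)) :
    NDk T a K (kk e) := by
  have h2 : 2 ∈ T := hT 2 (by norm_num) (by norm_num)
  obtain ⟨T1, S, hS, hST, -⟩ := exists_S K T hTp h2 ∅
  have ha2 : SqRel K T a := sqRel_of_frob K T a hfr
  obtain ⟨A1, hA1, hch⟩ := chain (isSys0E D hS hST hT ha ha2) (isExtE D hS hT he ha)
    (isKnE D hS hST hT ha ha2 he hx)
  obtain ⟨A2, b2, Dd, hDd, hF, hord⟩ := exists_Dd hTp hT D ha K hK hS hST ha2 he
  obtain ⟨b1, hb1⟩ := ord_N hT D ha K hS hST ha2 he hA1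
  refine ⟨max A1 A2, min b1 b2, hA1.trans (le_max_left _ _), fun X R hX hR => ?_⟩
  have hR1 : A1 < R := lt_of_le_of_lt (le_max_left _ _) hR
  obtain ⟨N, hN1, hN2, hN3⟩ := hch X R hX hR1
  refine ⟨N, Dd, hN1, hDd, ?_, ?_⟩
  · intro z hz hAz
    rw [hN2 z (lt_of_le_of_lt (le_max_left _ _) hAz) hz.2.1 hz.2.2,
      hF z (lt_of_le_of_lt (le_max_right _ _) hAz)]
  · intro j hj hb
    exact ⟨hb1 X R N hX hR1 hN1 hN2 hN3 j hj (lt_of_lt_of_le hb (min_le_left _ _)),
      hord j (lt_of_lt_of_le hb (min_le_right _ _))⟩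

private theorem cmp_one (z : ℂ) : LogO (fun _ => (1 : ℂ)) z ((0 : ℕ) : ℝ) := by
  refine ⟨0, 1, one_pos, fun δ _ _ => ⟨one_ne_zero, ?_⟩⟩
  simp

private theorem cmp_open (X R : ℝ) : IsOpen (Bo X R) := by
  have h1 : IsOpen {z : ℂ | -X < z.re} := isOpen_lt continuous_const Complex.continuous_re
  have h2 : IsOpen {z : ℂ | z.re < R} := isOpen_lt Complex.continuous_re continuous_const
  have h3 : IsOpen {z : ℂ | |z.im| < 1} :=
    isOpen_lt (continuous_abs.comp Complex.continuous_im) continuous_const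
  exact h1.inter (h2.inter h3)

private theorem cmp_conv (X R : ℝ) : Convex ℝ (Bo X R) := by
  have h1 : Convex ℝ {z : ℂ | -X < z.re} := convex_halfSpace_re_gt _
  have h2 : Convex ℝ {z : ℂ | z.re < R} := convex_halfSpace_re_lt _
  have h3 : Convex ℝ {z : ℂ | -1 < z.im} := convex_halfSpace_im_gt _
  have h4 : Convex ℝ {z : ℂ | z.im < 1} := convex_halfSpace_im_lt _
  have h5 : Bo X R = {z : ℂ | -X < z.re} ∩ ({z : ℂ | z.re < R} ∩
      ({z : ℂ | -1 < z.im} ∩ {z : ℂ | z.im < 1})) := by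
    ext z
    constructor
    · rintro ⟨h6, h7, h8⟩
      exact ⟨h6, h7, (abs_lt.1 h8).1, (abs_lt.1 h8).2⟩
    · rintro ⟨h6, h7, h8, h9⟩
      exact ⟨h6, h7, abs_lt.2 ⟨h8, h9⟩⟩
  rw [h5]
  exact h1.inter (h2.inter (h3.inter h4))

private theorem cmp_list {T : Finset ℕ} {a : ℕ → ℝ} (k : NF → ℕ) (A : List NF)
    (hA : ∀ F ∈ A, NDk T a F.F (k F)) : ∃ A0 b : ℝ, 1 ≤ A0 ∧ ∀ X R : ℝ, 0 < X → A0 < R →
    ∃ N Dd : ℂ → ℂ, DifferentiableOn ℂ N (Bo X R) ∧ DifferentiableOn ℂ Dd (Bo X R) ∧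
      (∀ z ∈ Bo X R, A0 < z.re → N z = Dd z * (A.map fun F => SP F.F a T z).prod) ∧
      ∀ j : ℕ, (j : ℝ) < X → -(j : ℝ) < b →
        LogO N (-(j : ℂ)) (((A.map fun F => 2 * Module.finrank ℚ F.F +
          2 * InfinitePlace.nrComplexPlaces F.F + k F).sum : ℕ) : ℝ) ∧
        LogO Dd (-(j : ℂ)) (((A.map fun F => Module.finrank ℚ F.F +
          InfinitePlace.nrComplexPlaces F.F).sum : ℕ) : ℝ) := by
  induction A with
  | nil =>
    refine ⟨1, 0, le_rfl, fun X R _ _ => ⟨fun _ => 1, fun _ => 1, differentiableOn_const _,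
      differentiableOn_const _, fun z _ _ => by simp, fun j _ _ => ⟨?_, ?_⟩⟩⟩
    · simpa using cmp_one (-(j : ℂ))
    · simpa using cmp_one (-(j : ℂ))
  | cons F A ih =>
    obtain ⟨A1, b1, hA1, h1⟩ := ih fun G hG => hA G (List.mem_cons_of_mem _ hG)
    obtain ⟨A2, b2, hA2, h2⟩ := hA F List.mem_cons_self
    refine ⟨max A1 A2, min b1 b2, hA1.trans (le_max_left _ _), fun X R hX hR => ?_⟩
    obtain ⟨N1, D1, hN1, hD1, he1, ho1⟩ := h1 X R hX ((le_max_left _ _).trans_lt hR)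
    obtain ⟨N2, D2, hN2, hD2, he2, ho2⟩ := h2 X R hX ((le_max_right _ _).trans_lt hR)
    refine ⟨fun s => N2 s * N1 s, fun s => D2 s * D1 s, hN2.mul hN1, hD2.differentiableOn.mul hD1,
      fun z hz hzA => ?_, fun j hj hjb => ⟨?_, ?_⟩⟩
    · show N2 z * N1 z = D2 z * D1 z * ((F :: A).map fun F => SP F.F a T z).prod
      rw [he1 z hz ((le_max_left _ _).trans_lt hzA), he2 z hz ((le_max_right _ _).trans_lt hzA),
        List.map_cons, List.prod_cons]
      ring
    · have e1 := (ho2 j hj (hjb.trans_le (min_le_right _ _))).1.mul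
        (ho1 j hj (hjb.trans_le (min_le_left _ _))).1
      rw [List.map_cons, List.sum_cons, Nat.cast_add]
      exact e1
    · have e1 := (ho2 j hj (hjb.trans_le (min_le_right _ _))).2.mul
        (ho1 j hj (hjb.trans_le (min_le_left _ _))).2
      rw [List.map_cons, List.sum_cons, Nat.cast_add]
      exact e1

private theorem cmp_sum1 (k : NF → ℕ) (A : List NF) :
    (A.map fun F => 2 * Module.finrank ℚ F.F + 2 * InfinitePlace.nrComplexPlaces F.F +
      k F).sum = 2 * (A.map fun F => Module.finrank ℚ F.F).sum +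
        2 * (A.map fun F => InfinitePlace.nrComplexPlaces F.F).sum +
          (A.map fun F => k F).sum := by
  induction A with
  | nil => simp
  | cons F A ih =>
    simp only [List.map_cons, List.sum_cons, ih]
    ring

private theorem cmp_sum2 (A : List NF) :
    (A.map fun F => Module.finrank ℚ F.F + InfinitePlace.nrComplexPlaces F.F).sum =
      (A.map fun F => Module.finrank ℚ F.F).sum +
        (A.map fun F => InfinitePlace.nrComplexPlaces F.F).sum := by
  induction A with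
  | nil => simp
  | cons F A ih =>
    simp only [List.map_cons, List.sum_cons, ih]
    ring

/-- the sums of the numbers `k`, `l` of related lists of fields agree -/
theorem cmpL2 {T : Finset ℕ} (hTp : ∀ p ∈ T, p.Prime) (hT : ∀ p : ℕ, p.Prime → p < 101 → p ∈ T)
    {a : ℕ → ℝ} (ha : ∀ q : ℕ, |a q| ≤ 2 * Real.sqrt q) (k l : NF → ℕ) {A B : List NF}
    (hA : ∀ F ∈ A, NDk T a F.F (k F)) (hB : ∀ F ∈ B, NDk T a F.F (l F)) (h : Rel T A B) :
    (A.map fun F => k F).sum = (B.map fun F => l F).sum := by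
  obtain ⟨A1, b1, hA1, h1⟩ := cmp_list k A hA
  obtain ⟨A2, b2, hA2, h2⟩ := cmp_list l B hB
  obtain ⟨j, hj⟩ := exists_nat_gt (max (-b1) (-b2))
  have hj1 : -(j : ℝ) < b1 := by
    have := (le_max_left (-b1) (-b2)).trans_lt hj
    linarith
  have hj2 : -(j : ℝ) < b2 := by
    have := (le_max_right (-b1) (-b2)).trans_lt hj
    linarith
  have hj0 : (0 : ℝ) ≤ j := Nat.cast_nonneg j
  have hX : (0 : ℝ) < (j : ℝ) + 1 := by linarith
  obtain ⟨N1, D1, hN1, hD1, he1, ho1⟩ := h1 (j + 1) (max A1 A2 + 1) hX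
    (by linarith [le_max_left A1 A2])
  obtain ⟨N2, D2, hN2, hD2, he2, ho2⟩ := h2 (j + 1) (max A1 A2 + 1) hX
    (by linarith [le_max_right A1 A2])
  obtain ⟨p1, p2⟩ := ho1 j (by linarith) hj1
  obtain ⟨q1, q2⟩ := ho2 j (by linarith) hj2
  set U : Set ℂ := Bo (j + 1) (max A1 A2 + 1) with hU
  have hopen : IsOpen U := cmp_open _ _
  have hconn : IsPreconnected U := (cmp_conv _ _).isPreconnected
  have hf : AnalyticOnNhd ℂ (fun s => N1 s * D2 s) U := (hN1.mul hD2).analyticOnNhd hopen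
  have hg : AnalyticOnNhd ℂ (fun s => N2 s * D1 s) U := (hN2.mul hD1).analyticOnNhd hopen
  have hm1 : A1 ≤ max A1 A2 := le_max_left _ _
  have hm2 : A2 ≤ max A1 A2 := le_max_right _ _
  have hz0 : (((max A1 A2 + 1 / 2 : ℝ)) : ℂ) ∈ U := by
    rw [hU]
    refine ⟨?_, ?_, ?_⟩
    · rw [Complex.ofReal_re]
      linarith
    · rw [Complex.ofReal_re]
      linarith
    · rw [Complex.ofReal_im, abs_zero]
      exact one_pos
  have hev : (fun s => N1 s * D2 s) =ᶠ[nhds (((max A1 A2 + 1 / 2 : ℝ)) : ℂ)]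
      fun s => N2 s * D1 s := by
    have hV : IsOpen {z : ℂ | max A1 A2 < z.re} :=
      isOpen_lt continuous_const Complex.continuous_re
    have hmem : (((max A1 A2 + 1 / 2 : ℝ)) : ℂ) ∈ {z : ℂ | max A1 A2 < z.re} := by
      rw [Set.mem_ofPred_eq, Complex.ofReal_re]
      linarith
    filter_upwards [hopen.mem_nhds hz0, hV.mem_nhds hmem] with z hz hzV
    have hzV' : max A1 A2 < z.re := hzV
    show N1 z * D2 z = N2 z * D1 z
    rw [he1 z hz (hm1.trans_lt hzV'), he2 z hz (hm2.trans_lt hzV'),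
      rel_SP h ha hTp hT (by linarith : (1 : ℝ) < z.re)]
    ring
  have heq : Set.EqOn (fun s => N1 s * D2 s) (fun s => N2 s * D1 s) U :=
    hf.eqOn_of_preconnected_of_eventuallyEq hg hconn hz0 hev
  have hlog : LogO (fun s => N2 s * D1 s) (-(j : ℂ)) _ := (p1.mul q2).congr (ε := 1) one_pos
    (fun δ h0 h1 => heq (by
      rw [hU]
      have e1 : (-(j : ℂ) + (δ : ℂ)).re = -(j : ℝ) + δ := by simp
      have e2 : (-(j : ℂ) + (δ : ℂ)).im = 0 := by simp
      refine ⟨?_, ?_, ?_⟩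
      · rw [e1]
        linarith
      · rw [e1]
        linarith
      · rw [e2, abs_zero]
        exact one_pos))
  have hfin := logO_unique hlog (q1.mul p2)
  have r1 := rel_finrank h
  have r2 := rel_complex h
  have hfin' : (A.map fun F => 2 * Module.finrank ℚ F.F + 2 * InfinitePlace.nrComplexPlaces F.F +
      k F).sum + (B.map fun F => Module.finrank ℚ F.F +
        InfinitePlace.nrComplexPlaces F.F).sum =
      (B.map fun F => 2 * Module.finrank ℚ F.F + 2 * InfinitePlace.nrComplexPlaces F.F +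
      l F).sum + (A.map fun F => Module.finrank ℚ F.F +
        InfinitePlace.nrComplexPlaces F.F).sum := by
    exact_mod_cast hfin
  rw [cmp_sum1 k A, cmp_sum1 l B, cmp_sum2 A, cmp_sum2 B] at hfin'
  omega

/-- the sums of the numbers `k` of related lists of fields agree -/
theorem cmpL {T : Finset ℕ} (hTp : ∀ p ∈ T, p.Prime) (hT : ∀ p : ℕ, p.Prime → p < 101 → p ∈ T)
    {a : ℕ → ℝ} (ha : ∀ q : ℕ, |a q| ≤ 2 * Real.sqrt q) (k : NF → ℕ) {A B : List NF}
    (hA : ∀ F ∈ A, NDk T a F.F (k F)) (hB : ∀ F ∈ B, NDk T a F.F (k F)) (h : Rel T A B) :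
    (A.map fun F => k F).sum = (B.map fun F => k F).sum :=
  cmpL2 hTp hT ha k k hA hB h

end Pool.Agent.TF2
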