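import Pool.Agent.TF2.K.Cl
import Pool.Agent.TF2.G.ChiL
import Pool.Agent.TF2.G.CmpL
import Pool.Agent.THF.L.Alg
import Pool.Agent.MD.L.Sq

/-!
# TF2/G-Main: the exact sign for all quadratic extensions of a field of the class

`exists_chiK`: the signs of `K` form a character `chi e`; for the fields `F` of `A`, `Bl` and for `R0` all signs are
`1` (`AllQ`).  `ndk_of` for all these fields and `cmpL` for the relation: `m1 * kk e = m2 * r1 (R0) = m1 * r1 (K)`, so
all `e φ = 1`.
-/

namespace Pool.Agent.TF2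

open NumberField IsDedekindDomain Pool.Agent.HWR Pool.Agent.QD Pool.Agent.QD.In Pool.Agent.LD
  Pool.Agent.MD Pool.Agent.THF Pool.Agent.THG Pool.Agent.H73.AL

private theorem chi_one {K : Type} [Field K] (x : Kˣ) {e : (K →+* ℝ) → ℤ} (he : ∀ φ, e φ = 1) :
    chi e x = 1 := by
  rw [chi]
  refine finprod_eq_one_of_forall_eq_one fun φ => ?_
  rw [he φ, ite_self]

private theorem kk_one (K : Type) [Field K] [NumberField K] :
    kk (fun _ : K →+* ℝ => (1 : ℤ)) = InfinitePlace.nrRealPlaces K := by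
  rw [kk, Pool.Agent.QD.N4.card_real]
  exact Nat.card_congr (Equiv.subtypeUnivEquiv fun _ => rfl)

variable {T : Finset ℕ} (hTp : ∀ p ∈ T, p.Prime) (hT : ∀ p : ℕ, p.Prime → p < 101 → p ∈ T)
  (D : LocData T) {a : ℕ → ℝ} (ha : ∀ q : ℕ, |a q| ≤ 2 * Real.sqrt q)

include hTp hT ha

/-- a field all of whose quadratic extensions are known -/
theorem ndk_allQ (hfr : FrobRel T a) (K : Type) [Field K] [NumberField K] (h : AllQ D a K) :
    NDk T a K (InfinitePlace.nrRealPlaces K) := by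
  have h1 := ndk_of hTp hT D ha hfr K h.1 (e := fun _ => 1) (fun _ => Or.inl rfl) fun x => by
    rw [chi_one x fun _ => rfl]
    by_cases hx : IsSquare x
    · exact SG_sq hTp hT D ha hx h.1
    · exact SG_of_hw hTp hT D ha hx (qf hx).L (qf hx).deg (qf hx).θ (qf hx).sq
        (h.2 (qf hx).L (qf hx).deg)
  rwa [kk_one K] at h1

/-- the rational numbers, with the totally negative `-1` -/
theorem ndk_rat (hfr : FrobRel T a) {M B : ℕ} (hE : ExL D a M B 11) (hQ : Lv M B 13 ℚ) :
    NDk T a ℚ (InfinitePlace.nrRealPlaces ℚ) := by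
  have hEQ : ExK D a ℚ := exK_of_exL hE hQ
  obtain ⟨e, he, hsg⟩ := exists_chiK hTp hT D ha ℚ hEQ
  have h0 : ∀ φ : ℚ →+* ℝ, e φ = 1 := by
    intro φ
    have h1 : ∀ ψ : ℚ →+* ℝ, ψ (((-1 : ℚˣ) : ℚˣ) : ℚ) < 0 := fun ψ => by
      rw [Units.val_neg, Units.val_one, map_neg, map_one]
      norm_num
    have h2 := SG_uniq hTp hT D ha (hsg (-1)) (SG_posK hTp hT D ha hEQ (Or.inr h1))
    rw [← h2]
    unfold chi
    have h3 : ∀ ψ : ℚ →+* ℝ, ψ = φ := fun ψ => Subsingleton.elim _ _
    rw [finprod_eq_single _ φ fun ψ hψ => absurd (h3 ψ) hψ, if_pos (h1 φ)]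
  have h4 : e = fun _ => 1 := funext h0
  have h5 := ndk_of hTp hT D ha hfr ℚ hEQ.1 he hsg
  rwa [h4, kk_one ℚ] at h5

/-- the exact sign for all quadratic extensions of `K`, from a relation with a reference field `R0` -/
theorem exact_signN (hfr : FrobRel T a) {M B : ℕ}
    (hE : ExL D a M B 11) (K : Type) [Field K] [NumberField K] (hK : Lv M B 13 K)
    {m1 m2 : ℕ} {A Bl : List NF} {R0 : NF} (hm : 0 < m1)
    (hAB : ∀ F ∈ A ++ Bl, IsEmpty (F.F →+* ℝ) ∧ AllQ D a F.F)
    (hR0 : NDk T a R0.F (InfinitePlace.nrRealPlaces R0.F))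
    (hr : m2 * InfinitePlace.nrRealPlaces R0.F = m1 * InfinitePlace.nrRealPlaces K)
    (hrel : Rel T (List.replicate m1 ⟨K⟩ ++ A) (List.replicate m2 R0 ++ Bl)) (F : Type) [Field F]
    [NumberField F] [Algebra K F] (hd : Module.finrank K F = 2) : D.HW a F := by
  classical
  by_cases hall : AllQ D a K
  · exact hall.2 F hd
  have hEK : ExK D a K := exK_of_exL hE hK
  obtain ⟨e, he, hsg⟩ := exists_chiK hTp hT D ha K hEK
  have hne : ∀ G : NF, AllQ D a G.F → G ≠ ⟨K⟩ := by
    rintro G hG rfl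
    exact hall hG
  set k : NF → ℕ := fun G => if G = ⟨K⟩ then kk e else InfinitePlace.nrRealPlaces G.F with hk
  have hkK : k ⟨K⟩ = kk e := if_pos rfl
  have hkne : ∀ G : NF, AllQ D a G.F → k G = InfinitePlace.nrRealPlaces G.F :=
    fun G hG => if_neg (hne G hG)
  have nK : NDk T a K (k ⟨K⟩) := by
    rw [hkK]
    exact ndk_of hTp hT D ha hfr K hEK.1 he hsg
  have r0 : ∀ G ∈ A ++ Bl, InfinitePlace.nrRealPlaces G.F = 0 := by
    intro G hG
    have h1 : IsEmpty (G.F →+* ℝ) := (hAB G hG).1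
    rw [Pool.Agent.QD.N4.card_real]
    exact Nat.card_eq_zero.2 (Or.inl h1)
  have h := cmpL2 hTp hT ha k (fun G => InfinitePlace.nrRealPlaces G.F)
    (A := List.replicate m1 ⟨K⟩ ++ A) (B := List.replicate m2 R0 ++ Bl)
    (fun G hG => by
      rcases List.mem_append.1 hG with h1 | h1
      · rw [List.eq_of_mem_replicate h1]
        exact nK
      · have h2 := (hAB G (List.mem_append.2 (Or.inl h1))).2
        rw [hkne G h2]
        exact ndk_allQ hTp hT D ha hfr G.F h2)
    (fun G hG => by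
      rcases List.mem_append.1 hG with h1 | h1
      · rw [List.eq_of_mem_replicate h1]
        exact hR0
      · exact ndk_allQ hTp hT D ha hfr G.F (hAB G (List.mem_append.2 (Or.inr h1))).2) hrel
  have hA : (A.map fun G => k G).sum = 0 :=
    List.sum_eq_zero fun x hx => by
      obtain ⟨G, hG, rfl⟩ := List.mem_map.1 hx
      rw [hkne G (hAB G (List.mem_append.2 (Or.inl hG))).2]
      exact r0 G (List.mem_append.2 (Or.inl hG))
  have hB : (Bl.map fun G => InfinitePlace.nrRealPlaces G.F).sum = 0 :=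
    List.sum_eq_zero fun x hx => by
      obtain ⟨G, hG, rfl⟩ := List.mem_map.1 hx
      exact r0 G (List.mem_append.2 (Or.inr hG))
  rw [List.map_append, List.map_append, List.sum_append, List.sum_append, hA, hB,
    List.map_replicate, List.map_replicate, List.sum_replicate, List.sum_replicate] at h
  simp only [smul_eq_mul, add_zero] at h
  rw [hkK, hr] at h
  have h1 : kk e = InfinitePlace.nrRealPlaces K := Nat.eq_of_mul_eq_mul_left hm h
  have h3 : ∀ φ : K →+* ℝ, e φ = 1 := by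
    intro φ
    by_contra hn
    rw [kk, Pool.Agent.QD.N4.card_real] at h1
    have h2 : Nat.card {φ : K →+* ℝ // e φ = 1} < Nat.card (K →+* ℝ) :=
      Finite.card_subtype_lt hn
    omega
  obtain ⟨b, θ, hb, hθ⟩ := exists_root (K := K) F hd
  refine hw_of_SG hTp hT D ha hb F hd θ hθ ?_
  have h4 := hsg b
  rwa [chi_one b h3] at h4

theorem exact_signL (hfr : FrobRel T a) {M B : ℕ}
    (hE : ExL D a M B 11) (K : Type) [Field K] [NumberField K] (hK : Lv M B 13 K)
    {m1 m2 : ℕ} {A Bl : List NF} {R0 : NF} (hm : 0 < m1)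
    (hAB : ∀ F ∈ A ++ Bl, IsEmpty (F.F →+* ℝ) ∧ AllQ D a F.F) (hR0 : AllQ D a R0.F)
    (hr : m2 * InfinitePlace.nrRealPlaces R0.F = m1 * InfinitePlace.nrRealPlaces K)
    (hrel : Rel T (List.replicate m1 ⟨K⟩ ++ A) (List.replicate m2 R0 ++ Bl)) (F : Type) [Field F]
    [NumberField F] [Algebra K F] (hd : Module.finrank K F = 2) : D.HW a F :=
  exact_signN hTp hT D ha hfr hE K hK hm hAB (ndk_allQ hTp hT D ha hfr R0.F hR0) hr hrel F hd

end Pool.Agent.TF2
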